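import Pool.Agent.Helper38.Thick.Level3
import Pool.Agent.Helper40.Pack.Shares

/-!
# Level 3 with one special colour
-/

set_option autoImplicit false
set_option linter.unusedSectionVars false

namespace Pool.Agent.Helper8.ManyLines

open Pool.Agent.Helper28.BPack Pool.Agent.Helper61.Motz Pool.Agent.Helper38.Thick

variable {L : Type} [Lattice L] [BoundedOrder L] [Finite L] [IsUpperModularLattice L]

/-- The share of a line. -/
noncomputable def wt [DecidableRel (α := L) (· ≤ ·)] (A : Finset L) (m : ℕ) (g : L) : ℚ :=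
  (1 : ℚ) / (min (A.filter (· ≤ g)).card m : ℕ)

theorem wt_nonneg [DecidableRel (α := L) (· ≤ ·)] (A : Finset L) (m : ℕ) (g : L) :
    0 ≤ wt A m g := by
  unfold wt
  exact div_nonneg zero_le_one (Nat.cast_nonneg _)

theorem share_long {m h f : ℚ} (hm : 0 < m) (e : m = h + f) : 1 - h * (1 / m) = f / m := by
  have h1 : f = m - h := by linarith
  rw [h1, sub_div, div_self hm.ne', mul_one_div]

theorem share_short {n m h f : ℚ} (hn : 0 < n) (hnm : n ≤ m) (hf : 0 ≤ f) (e : n = h + f + 1) :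
    1 / n + f / m ≤ 1 - h * (1 / n) := by
  have h1 : f / m ≤ f / n := div_le_div_of_nonneg_left hf hn hnm
  have h2 : h = n - (f + 1) := by linarith
  have h3 : 1 - h * (1 / n) = 1 / n + f / n := by
    rw [h2, mul_one_div, sub_div, div_self hn.ne', add_div]
    ring
  rw [h3]
  linarith

theorem level3B [DecidableEq L] [DecidableRel (α := L) (· ≤ ·)] {A R : Finset L} {u c1 : L}
    {r cc H : L → L} {m : ℕ}
    (hA : ∀ a ∈ A, IsAtom a) (hu : rk u = 2)
    (hm : 2 ≤ m) (hU : (A.filter (· ≤ u)).card = m + 1)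
    (hmax : ∀ k, rk k = 2 → (A.filter (· ≤ k)).card ≤ m + 1)
    (hmR : ∀ x, x ∈ R ↔ x ∈ A ∧ ¬ x ≤ u ∧ r x ≠ x)
    (hr : ∀ x ∈ A, ¬ x ≤ u → r x ∈ A ∧ ¬ r x ≤ u ∧ r x ≤ x ⊔ u)
    (hrr : ∀ x ∈ A, ¬ x ≤ u → ∀ y ∈ A, ¬ y ≤ u → y ≤ x ⊔ u → r x = r y)
    (hcc : ∀ x ∈ R, cc x ∈ A ∧ cc x ≤ u)
    (hc1 : c1 ∈ A) (hc1u : c1 ≤ u)
    (hst : ∀ x ∈ R, cc x ≠ c1 → ¬ r x ≤ x ⊔ c1 → ∃ y ∈ R, cc y = c1 ∧ y ≤ x ⊔ c1)
    (hH : ∀ x ∈ R, rk (H x) = 3 ∧ x ⊔ cc x ≤ H x ∧ ¬ u ≤ H x)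
    (hHinj : ∀ x ∈ R, ∀ y ∈ R, cc x = cc y → H x = H y → x = y)
    (hC : ∀ x ∈ R, (1 : ℚ) ≤ ∑ g ∈ pen A x (x ⊔ cc x) (H x), wt A m g) :
    ∃ gg : L → L, (∀ x ∈ R, gg x ∈ A ∧ gg x ≤ H x ∧ ¬ gg x ≤ x ⊔ cc x) ∧
      (∀ x ∈ R, ∀ y ∈ R, x ⊔ gg x = y ⊔ gg y → x = y) := by
  obtain ⟨T, hT⟩ : ∃ T : L → Finset L, ∀ x, T x = pen A x (x ⊔ cc x) (H x) := ⟨_, fun _ => rfl⟩
  have hmT : ∀ x g, g ∈ T x ↔ ∃ z ∈ A, z ≤ H x ∧ ¬ z ≤ x ⊔ cc x ∧ x ⊔ z = g := fun x g => by
    rw [hT]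
    exact mem_pen
  replace hC : ∀ x ∈ R, (1 : ℚ) ≤ ∑ g ∈ T x, wt A m g := fun x hx => by
    rw [hT]
    exact hC x hx
  have hRA : ∀ x ∈ R, x ∈ A := fun x hx => ((hmR x).mp hx).1
  have hRu : ∀ x ∈ R, ¬ x ≤ u := fun x hx => ((hmR x).mp hx).2.1
  have hxc : ∀ x ∈ R, x ≠ cc x := fun x hx h => hRu x hx (by rw [h]; exact (hcc x hx).2)
  -- basic facts on candidates
  have hcand : ∀ x ∈ R, ∀ g ∈ T x, rk g = 2 ∧ x ≤ g ∧ g ≤ H x ∧ ¬ cc x ≤ g ∧ g ⊔ cc x = H x := by
    intro x hx g hg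
    obtain ⟨z, hz, hzH, hzk, rfl⟩ := (hmT x g).mp hg
    have hxz : x ≠ z := fun h => hzk (h ▸ le_sup_left)
    have hxA := hA x (hRA x hx)
    have hcA := hA _ (hcc x hx).1
    have h2 : rk (x ⊔ z) = 2 := rk_line hxA (hA z hz) hxz
    have hn : ¬ cc x ≤ x ⊔ z := by
      intro h
      have h3 : x ⊔ cc x = x ⊔ z := line_of hxA hcA (hxc x hx) le_sup_left h h2
      exact hzk (h3 ▸ le_sup_right)
    have hle : x ⊔ z ≤ H x := sup_le (le_sup_left.trans (hH x hx).2.1) hzH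
    refine ⟨h2, le_sup_left, hle, hn, ?_⟩
    exact eq_of_le_of_rk (sup_le hle (le_sup_right.trans (hH x hx).2.1))
      (by rw [rk_sup_atom hcA hn, h2, (hH x hx).1])
  -- the points of `g` which use another colour
  obtain ⟨h, hmh⟩ : ∃ h : L → Finset L, ∀ g v, v ∈ h g ↔ v ∈ R ∧ v ≤ g ∧ cc v ≠ c1 :=
    ⟨fun g => R.filter (fun v => v ≤ g ∧ cc v ≠ c1), fun g v => by rw [Finset.mem_filter]⟩
  -- the other points of `g`
  obtain ⟨F, hmF⟩ : ∃ F : L → L → Finset L, ∀ x g z,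
      z ∈ F x g ↔ z ∈ A ∧ z ≤ g ∧ z ≠ x ∧ ¬ (z ∈ R ∧ cc z ≠ c1) :=
    ⟨fun x g => A.filter (fun z => z ≤ g ∧ z ≠ x ∧ ¬ (z ∈ R ∧ cc z ≠ c1)), fun x g z => by
      rw [Finset.mem_filter]⟩
  have hcount : ∀ x ∈ R, cc x = c1 → ∀ g, x ≤ g →
      (A.filter (· ≤ g)).card = (h g).card + (F x g).card + 1 := by
    intro x hx hxc1 g hxg
    have e1 : A.filter (· ≤ g) = insert x (h g ∪ F x g) := by
      ext z
      rw [Finset.mem_filter, Finset.mem_insert, Finset.mem_union, hmh, hmF]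
      constructor
      · rintro ⟨h1, h2⟩
        by_cases h3 : z = x
        · exact Or.inl h3
        · right
          by_cases h4 : z ∈ R ∧ cc z ≠ c1
          · exact Or.inl ⟨h4.1, h2, h4.2⟩
          · exact Or.inr ⟨h1, h2, h3, h4⟩
      · rintro (h1 | h1 | h1)
        · subst h1
          exact ⟨hRA _ hx, hxg⟩
        · exact ⟨hRA _ h1.1, h1.2.1⟩
        · exact ⟨h1.1, h1.2.1⟩
    have h2 : x ∉ h g ∪ F x g := by
      rw [Finset.mem_union, hmh, hmF]
      rintro (h1 | h1)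
      · exact h1.2.2 hxc1
      · exact h1.2.2.1 rfl
    have h3 : Disjoint (h g) (F x g) := by
      rw [Finset.disjoint_left]
      intro z hz hz'
      rw [hmh] at hz
      rw [hmF] at hz'
      exact hz'.2.2.2 ⟨hz.1, hz.2.2⟩
    rw [e1, Finset.card_insert_of_notMem h2, Finset.card_union_of_disjoint h3]
  have hcard2 : ∀ x ∈ R, ∀ g ∈ T x, 2 ≤ (A.filter (· ≤ g)).card := by
    intro x hx g hg
    obtain ⟨z, hz, hzH, hzk, rfl⟩ := (hmT x g).mp hg
    have hxz : x ≠ z := fun h => hzk (h ▸ le_sup_left)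
    have h1 : ({x, z} : Finset L) ⊆ A.filter (· ≤ x ⊔ z) := by
      intro y hy
      rw [Finset.mem_insert, Finset.mem_singleton] at hy
      rw [Finset.mem_filter]
      rcases hy with rfl | rfl
      · exact ⟨hRA _ hx, le_sup_left⟩
      · exact ⟨hz, le_sup_right⟩
    have h2 := Finset.card_le_card h1
    rwa [Finset.card_pair hxz] at h2
  have hm0 : (0 : ℚ) < m := by
    have : 0 < m := by omega
    exact_mod_cast this
  -- the value of the special share
  have hval : ∀ x ∈ R, cc x = c1 → ∀ g ∈ T x,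
      ((A.filter (· ≤ g)).card = m + 1 → 1 - ((h g).card : ℚ) * wt A m g = (F x g).card / m) ∧
      ((A.filter (· ≤ g)).card ≤ m →
        wt A m g + (F x g).card / m ≤ 1 - ((h g).card : ℚ) * wt A m g) := by
    intro x hx hxc1 g hg
    have h1 := hcount x hx hxc1 g (hcand x hx g hg).2.1
    have h2 := hcard2 x hx g hg
    constructor
    · intro h3
      have e1 : wt A m g = 1 / m := by
        unfold wt
        rw [h3, min_eq_right (by omega)]
      have e2 : (m : ℚ) = (h g).card + (F x g).card := by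
        have : m = (h g).card + (F x g).card := by omega
        exact_mod_cast this
      rw [e1]
      exact share_long hm0 e2
    · intro h3
      have e1 : wt A m g = 1 / (A.filter (· ≤ g)).card := by
        unfold wt
        rw [min_eq_left h3]
      have e2 : ((A.filter (· ≤ g)).card : ℚ) = (h g).card + (F x g).card + 1 := by
        exact_mod_cast h1
      have e3 : ((A.filter (· ≤ g)).card : ℚ) ≤ m := by exact_mod_cast h3
      have e4 : (0 : ℚ) < (A.filter (· ≤ g)).card := by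
        have : 0 < (A.filter (· ≤ g)).card := by omega
        exact_mod_cast this
      rw [e1]
      exact share_short e4 e3 (Nat.cast_nonneg _) e2
  have hval0 : ∀ x ∈ R, cc x = c1 → ∀ g ∈ T x,
      ((F x g).card : ℚ) / m ≤ 1 - ((h g).card : ℚ) * wt A m g := by
    intro x hx hxc1 g hg
    obtain ⟨h1, h2⟩ := hval x hx hxc1 g hg
    by_cases h3 : (A.filter (· ≤ g)).card ≤ m
    · have := h2 h3
      have h4 := wt_nonneg A m g
      linarith
    · have h4 := hmax g (hcand x hx g hg).1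
      exact (h1 (by omega)).ge
  -- rows through `c1` and points of another kind
  have hrow : ∀ x ∈ R, cc x = c1 → ∀ g ∈ T x, ∀ z ∈ A, z ≤ g → z ≠ x →
      ∃ p ∈ A, p ≤ z ⊔ c1 ∧ ¬ p ≤ u ∧ ¬ (p ∈ R ∧ cc p ≠ c1) ∧ ¬ p ≤ x ⊔ c1 ∧ p ≤ H x := by
    intro x hx hxc1 g hg z hz hzg hzx
    obtain ⟨hg2, hxg, hgH, hcg, hgc⟩ := hcand x hx g hg
    rw [hxc1] at hcg hgc
    have hxne : x ≠ c1 := hxc1 ▸ hxc x hx
    have hzc1 : z ≠ c1 := fun e => hcg (e ▸ hzg)
    have hc1H : c1 ≤ H x := by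
      rw [← hgc]
      exact le_sup_right
    have hzH : z ≤ H x := hzg.trans hgH
    have hzu : ¬ z ≤ u := by
      intro hzu
      have e1 : z ⊔ c1 = u := line_of (hA z hz) (hA c1 hc1) hzc1 hzu hc1u hu
      exact (hH x hx).2.2 (e1 ▸ sup_le hzH hc1H)
    have hzk : ¬ z ≤ x ⊔ c1 := by
      intro hzk
      have e1 : x ⊔ z = x ⊔ c1 := line_of (hA x (hRA x hx)) (hA z hz) hzx.symm le_sup_left hzk
        (rk_line (hA x (hRA x hx)) (hA c1 hc1) hxne)
      have e2 : x ⊔ z = g := line_of (hA x (hRA x hx)) (hA z hz) hzx.symm hxg hzg hg2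
      exact hcg (by rw [← e2, e1]; exact le_sup_right)
    -- a point of the row off `u` is not on the row of `x`
    have hoff : ∀ p ∈ A, p ≤ z ⊔ c1 → ¬ p ≤ u → ¬ p ≤ x ⊔ c1 := by
      intro p hp hpz hpu hpx
      have hpc : p ≠ c1 := fun e => hpu (e ▸ hc1u)
      have e1 : p ⊔ c1 = z ⊔ c1 := line_of (hA p hp) (hA c1 hc1) hpc hpz le_sup_right
        (rk_line (hA z hz) (hA c1 hc1) hzc1)
      have e2 : p ⊔ c1 = x ⊔ c1 := line_of (hA p hp) (hA c1 hc1) hpc hpx le_sup_right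
        (rk_line (hA x (hRA x hx)) (hA c1 hc1) hxne)
      exact hzk (by rw [← e2, e1]; exact le_sup_left)
    have hrow' : ∀ p, p ≤ z ⊔ c1 → p ≤ H x := fun p hp => hp.trans (sup_le hzH hc1H)
    by_cases hrz : r z ≤ z ⊔ c1
    · obtain ⟨k1, k2, k3⟩ := hr z hz hzu
      refine ⟨r z, k1, hrz, k2, ?_, hoff _ k1 hrz k2, hrow' _ hrz⟩
      rintro ⟨k4, -⟩
      have k5 := ((hmR _).mp k4).2.2
      exact k5 (hrr z hz hzu (r z) k1 k2 k3).symm
    · have hzR : z ∈ R := (hmR z).mpr ⟨hz, hzu, fun e => hrz (by rw [e]; exact le_sup_left)⟩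
      by_cases hzc : cc z = c1
      · exact ⟨z, hz, le_sup_left, hzu, fun k => k.2 hzc, hzk, hzH⟩
      · obtain ⟨y, hy, hyc, hyz⟩ := hst z hzR hzc hrz
        exact ⟨y, hRA y hy, hyz, hRu y hy, fun k => k.2 hyc, hoff y (hRA y hy) hyz (hRu y hy),
          hrow' y hyz⟩
  have hmany : ∀ x ∈ R, cc x = c1 → ∀ g ∈ T x,
      (A.filter (· ≤ g)).card ≤ (∑ g' ∈ T x, (F x g').card) + 1 := by
    intro x hx hxc1 g hg
    obtain ⟨hg2, hxg, hgH, hcg, hgc⟩ := hcand x hx g hg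
    rw [hxc1] at hcg hgc
    have hex : ∀ z : L, ∃ p, z ∈ (A.filter (· ≤ g)).erase x → p ∈ A ∧ p ≤ z ⊔ c1 ∧ ¬ p ≤ u ∧
        ¬ (p ∈ R ∧ cc p ≠ c1) ∧ ¬ p ≤ x ⊔ c1 ∧ p ≤ H x := by
      intro z
      by_cases hz : z ∈ (A.filter (· ≤ g)).erase x
      · have hz' := hz
        rw [Finset.mem_erase, Finset.mem_filter] at hz'
        obtain ⟨p, h1, h2, h3, h4, h5, h6⟩ := hrow x hx hxc1 g hg z hz'.2.1 hz'.2.2 hz'.1
        exact ⟨p, fun _ => ⟨h1, h2, h3, h4, h5, h6⟩⟩
      · exact ⟨z, fun h => absurd h hz⟩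
    choose P hP using hex
    have hmaps : ∀ z ∈ (A.filter (· ≤ g)).erase x, P z ∈ (T x).biUnion (fun g' => F x g') := by
      intro z hz
      obtain ⟨h1, h2, h3, h4, h5, h6⟩ := hP z hz
      rw [Finset.mem_biUnion]
      refine ⟨x ⊔ P z, (hmT x _).mpr ⟨P z, h1, h6, by rw [hxc1]; exact h5, rfl⟩, ?_⟩
      rw [hmF]
      exact ⟨h1, le_sup_right, fun e => h5 (e ▸ le_sup_left), h4⟩
    have hinj : Set.InjOn P ((A.filter (· ≤ g)).erase x : Finset L) := by
      intro z hz z' hz' e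
      rw [Finset.mem_coe] at hz hz'
      obtain ⟨h1, h2, h3, -⟩ := hP z hz
      obtain ⟨h1', h2', h3', -⟩ := hP z' hz'
      rw [Finset.mem_erase, Finset.mem_filter] at hz hz'
      by_contra hne
      have hzc1 : z ≠ c1 := fun e => hcg (e ▸ hz.2.2)
      have hzc1' : z' ≠ c1 := fun e => hcg (e ▸ hz'.2.2)
      have hpc : P z ≠ c1 := fun e => h3 (e ▸ hc1u)
      have e1 : P z ⊔ c1 = z ⊔ c1 := line_of (hA _ h1) (hA c1 hc1) hpc h2 le_sup_right
        (rk_line (hA z hz.2.1) (hA c1 hc1) hzc1)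
      have e2 : P z ⊔ c1 = z' ⊔ c1 := line_of (hA _ h1) (hA c1 hc1) hpc (e ▸ h2') le_sup_right
        (rk_line (hA z' hz'.2.1) (hA c1 hc1) hzc1')
      have e3 : z ⊔ z' = z ⊔ c1 := line_of (hA z hz.2.1) (hA z' hz'.2.1) hne le_sup_left
        (by rw [← e1, e2]; exact le_sup_left) (rk_line (hA z hz.2.1) (hA c1 hc1) hzc1)
      have e4 : z ⊔ z' = g := line_of (hA z hz.2.1) (hA z' hz'.2.1) hne hz.2.2 hz'.2.2 hg2
      exact hcg (by rw [← e4, e3]; exact le_sup_right)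
    have h1 := Finset.card_le_card_of_injOn P hmaps hinj
    have h2 := Finset.card_biUnion_le (s := T x) (t := fun g' => F x g')
    have h3 : x ∈ A.filter (· ≤ g) := Finset.mem_filter.mpr ⟨hRA x hx, hxg⟩
    rw [Finset.card_erase_of_mem h3] at h1
    omega
  -- the shares
  obtain ⟨τ, hτ⟩ : ∃ τ : {x // x ∈ R} → L → ℚ, ∀ x g, τ x g =
      if g ∈ T x.1 then (if cc x.1 = c1 then 1 - ((h g).card : ℚ) * wt A m g else wt A m g)
      else 0 := ⟨_, fun _ _ => rfl⟩
  have hτ1 : ∀ (x : {x // x ∈ R}) g, g ∈ T x.1 → cc x.1 = c1 →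
      τ x g = 1 - ((h g).card : ℚ) * wt A m g := by
    intro x g h1 h2
    rw [hτ, if_pos h1, if_pos h2]
  have hτ2 : ∀ (x : {x // x ∈ R}) g, g ∈ T x.1 → cc x.1 ≠ c1 → τ x g = wt A m g := by
    intro x g h1 h2
    rw [hτ, if_pos h1, if_neg h2]
  obtain ⟨f, hf, hft⟩ := Pool.Agent.Helper40.Pack.hall_of_shares (X := {x // x ∈ R}) (Y := L)
    (fun x => T x.1) τ (by
      intro x g
      by_cases h1 : g ∈ T x.1
      · by_cases h2 : cc x.1 = c1
        · rw [hτ1 x g h1 h2]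
          exact le_trans (div_nonneg (Nat.cast_nonneg _) (Nat.cast_nonneg _)) (hval0 x.1 x.2 h2 g h1)
        · rw [hτ2 x g h1 h2]
          exact wt_nonneg A m g
      · rw [hτ, if_neg h1]) (by
      rintro ⟨x, hx⟩
      by_cases h2 : cc x = c1
      · -- the owner of the special colour
        have e1 : ∑ g ∈ T x, τ ⟨x, hx⟩ g = ∑ g ∈ T x, (1 - ((h g).card : ℚ) * wt A m g) :=
          Finset.sum_congr rfl (fun g hg => hτ1 ⟨x, hx⟩ g hg h2)
        change 1 ≤ ∑ g ∈ T x, τ ⟨x, hx⟩ g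
        rw [e1]
        by_cases hlong : ∃ g ∈ T x, (A.filter (· ≤ g)).card = m + 1
        · obtain ⟨g, hg, hgm⟩ := hlong
          have h3 := hmany x hx h2 g hg
          have h4 : (m : ℚ) ≤ ∑ g' ∈ T x, ((F x g').card : ℚ) := by
            have : m ≤ ∑ g' ∈ T x, (F x g').card := by omega
            exact_mod_cast this
          have h5 : ∑ g ∈ T x, ((F x g).card : ℚ) / m ≤
              ∑ g ∈ T x, (1 - ((h g).card : ℚ) * wt A m g) :=
            Finset.sum_le_sum (fun g hg => hval0 x hx h2 g hg)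
          rw [← Finset.sum_div] at h5
          have h6 : (1 : ℚ) ≤ (∑ g' ∈ T x, ((F x g').card : ℚ)) / m := by
            rw [le_div_iff₀ hm0, one_mul]
            exact h4
          exact h6.trans h5
        · push Not at hlong
          refine (hC x hx).trans (Finset.sum_le_sum ?_)
          intro g hg
          have h3 := hmax g (hcand x hx g hg).1
          have h4 := (hval x hx h2 g hg).2 (by have := hlong g hg; omega)
          have h5 : (0 : ℚ) ≤ (F x g).card / m := div_nonneg (Nat.cast_nonneg _) (Nat.cast_nonneg _)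
          linarith
      · have e1 : ∑ g ∈ T x, τ ⟨x, hx⟩ g = ∑ g ∈ T x, wt A m g :=
          Finset.sum_congr rfl (fun g hg => hτ2 ⟨x, hx⟩ g hg h2)
        change 1 ≤ ∑ g ∈ T x, τ ⟨x, hx⟩ g
        rw [e1]
        exact hC x hx) (by
      intro g
      obtain ⟨S, hS⟩ : ∃ S, S = Finset.univ.filter (fun x : {x // x ∈ R} => g ∈ T x.1) :=
        ⟨_, rfl⟩
      have hmS : ∀ x, x ∈ S ↔ g ∈ T x.1 := fun x => by
        rw [hS, Finset.mem_filter]
        exact ⟨fun k => k.2, fun k => ⟨Finset.mem_univ _, k⟩⟩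
      rw [← hS]
      have hcol : ∀ x ∈ S, ∀ y ∈ S, cc x.1 = cc y.1 → x = y := by
        intro x hx y hy e
        apply Subtype.ext
        apply hHinj x.1 x.2 y.1 y.2 e
        rw [← (hcand x.1 x.2 g ((hmS x).mp hx)).2.2.2.2, ← (hcand y.1 y.2 g ((hmS y).mp hy)).2.2.2.2,
          e]
      by_cases hsp : ∃ x0 ∈ S, cc x0.1 = c1
      · obtain ⟨x0, hx0, hx0c⟩ := hsp
        rw [← Finset.add_sum_erase S (fun x => τ x g) hx0]
        have h1 : ∀ x ∈ S.erase x0, τ x g = wt A m g := by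
          intro x hx
          rw [Finset.mem_erase] at hx
          apply hτ2 x g ((hmS x).mp hx.2)
          intro e
          exact hx.1 (hcol x hx.2 x0 hx0 (e.trans hx0c.symm))
        rw [Finset.sum_congr rfl h1, Finset.sum_const, nsmul_eq_mul]
        change τ x0 g + _ ≤ 1
        rw [hτ1 x0 g ((hmS x0).mp hx0) hx0c]
        have h2 : (S.erase x0).card ≤ (h g).card := by
          apply Finset.card_le_card_of_injOn (fun x => x.1)
          · intro x hx
            rw [Finset.mem_coe, Finset.mem_erase] at hx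
            rw [Finset.mem_coe, hmh]
            refine ⟨x.2, (hcand x.1 x.2 g ((hmS x).mp hx.2)).2.1, ?_⟩
            intro e
            exact hx.1 (hcol x hx.2 x0 hx0 (e.trans hx0c.symm))
          · intro x _ y _ e
            exact Subtype.ext e
        have h3 : ((S.erase x0).card : ℚ) ≤ (h g).card := by exact_mod_cast h2
        have h4 := mul_le_mul_of_nonneg_right h3 (wt_nonneg A m g)
        linarith
      · push Not at hsp
        have h1 : ∀ x ∈ S, τ x g = wt A m g := fun x hx => hτ2 x g ((hmS x).mp hx) (hsp x hx)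
        change ∑ x ∈ S, τ x g ≤ 1
        rw [Finset.sum_congr rfl h1, Finset.sum_const, nsmul_eq_mul]
        have h2 : S.card ≤ (A.filter (· ≤ g)).card := by
          apply Finset.card_le_card_of_injOn (fun x => x.1)
          · intro x hx
            rw [Finset.mem_coe] at hx
            rw [Finset.mem_coe, Finset.mem_filter]
            exact ⟨hRA x.1 x.2, (hcand x.1 x.2 g ((hmS x).mp hx)).2.1⟩
          · intro x _ y _ e
            exact Subtype.ext e
        have h3 : S.card ≤ ((A.filter (· ≤ u)).erase c1).card := by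
          apply Finset.card_le_card_of_injOn (fun x => cc x.1)
          · intro x hx
            rw [Finset.mem_coe] at hx
            rw [Finset.mem_coe, Finset.mem_erase, Finset.mem_filter]
            exact ⟨hsp x hx, (hcc x.1 x.2).1, (hcc x.1 x.2).2⟩
          · intro x hx y hy e
            exact hcol x hx y hy e
        rw [Finset.card_erase_of_mem (Finset.mem_filter.mpr ⟨hc1, hc1u⟩), hU] at h3
        have h4 : S.card ≤ min (A.filter (· ≤ g)).card m := le_min h2 (by omega)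
        unfold wt
        rw [mul_one_div]
        exact div_le_one_of_le₀ (by exact_mod_cast h4) (Nat.cast_nonneg _))
  have hex : ∀ x : {x // x ∈ R}, ∃ z ∈ A, z ≤ H x.1 ∧ ¬ z ≤ x.1 ⊔ cc x.1 ∧ x.1 ⊔ z = f x :=
    fun x => (hmT _ _).mp (hft x)
  choose z hz hzH hzk hzf using hex
  refine ⟨fun x => if h : x ∈ R then z ⟨x, h⟩ else x, ?_, ?_⟩
  · intro x hx
    simp only [hx, dite_true]
    exact ⟨hz ⟨x, hx⟩, hzH ⟨x, hx⟩, hzk ⟨x, hx⟩⟩
  · intro x hx y hy e
    simp only [hx, hy, dite_true] at e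
    have h1 : f ⟨x, hx⟩ = f ⟨y, hy⟩ := by
      rw [← hzf ⟨x, hx⟩, ← hzf ⟨y, hy⟩]
      exact e
    exact congrArg Subtype.val (hf h1)

end Pool.Agent.Helper8.ManyLines
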