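import Pool.Agent.Helper38.Thick.Chain
import Pool.Agent.Helper40.Pack.Level1P
import Pool.Agent.Helper8.ManyLines.Level3

/-!
# Rank four data for sets of atoms whose planes have many lines at every point
-/

set_option autoImplicit false
set_option linter.unusedSectionVars false

namespace Pool.Agent.Helper8.ManyLines

open Pool.Agent.Helper28.BPack Pool.Agent.Helper61.Motz Pool.Agent.Helper38.Thick

variable {L : Type} [Lattice L] [BoundedOrder L] [Finite L] [IsUpperModularLattice L]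

/-- In every plane the lines through a point, one of them left out, are many or short. -/
def Many [DecidableEq L] [DecidableRel (α := L) (· ≤ ·)] (m : ℕ) (A : Finset L) : Prop :=
  ∀ H : L, rk H = 3 → ∀ x ∈ A, ∀ c ∈ A, x ≠ c → x ≤ H → c ≤ H → (∃ z ∈ A, z ≤ H ∧ ¬ z ≤ x ⊔ c) →
    (1 : ℚ) ≤ ∑ g ∈ pen A x (x ⊔ c) H, wt A m g

theorem two_le_card [DecidableRel (α := L) (· ≤ ·)] {A : Finset L} {a b k : L} (ha : a ∈ A)
    (hb : b ∈ A) (hab : a ≠ b) (hak : a ≤ k) (hbk : b ≤ k) : 2 ≤ (A.filter (· ≤ k)).card := by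
  classical
  have h4 : ({a, b} : Finset L) ⊆ A.filter (· ≤ k) := by
    intro z hz
    rw [Finset.mem_insert, Finset.mem_singleton] at hz
    rw [Finset.mem_filter]
    rcases hz with rfl | rfl
    · exact ⟨ha, hak⟩
    · exact ⟨hb, hbk⟩
  have h5 := Finset.card_le_card h4
  rwa [Finset.card_pair hab] at h5

theorem core_of_many [DecidableEq L] [DecidableRel (α := L) (· ≤ ·)] {A : Finset L} {m : ℕ}
    (hm : 2 ≤ m) (hA : ∀ a ∈ A, IsAtom a) (h : Many m A) : Core A := by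
  intro p hp a ha b hb hab hpab
  by_contra hcon
  push Not at hcon
  have hap : a ≠ p := fun e => hpab (e ▸ le_sup_left)
  have hbp : b ≠ p := fun e => hpab (e ▸ le_sup_right)
  have hH : rk (p ⊔ a ⊔ b) = 3 := by
    have h2 : p ⊔ a ⊔ b = a ⊔ b ⊔ p := by rw [sup_assoc, sup_comm]
    rw [h2, rk_sup_atom (hA p hp) hpab, rk_line (hA _ ha) (hA _ hb) hab]
  have hbk : ¬ b ≤ a ⊔ p := by
    intro hle
    have h1 : p ⊔ a ⊔ b = a ⊔ p := by rw [sup_comm p a]; exact sup_eq_left.mpr hle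
    rw [h1, rk_line (hA _ ha) (hA _ hp) hap] at hH
    omega
  have h1 := h (p ⊔ a ⊔ b) hH a ha p hp hap (le_sup_right.trans le_sup_left)
    (le_sup_left.trans le_sup_left) ⟨b, hb, le_sup_right, hbk⟩
  have hsub : pen A a (a ⊔ p) (p ⊔ a ⊔ b) ⊆ {a ⊔ b} := by
    intro g hg
    obtain ⟨z, hz, hzH, hzk, rfl⟩ := mem_pen.mp hg
    rw [Finset.mem_singleton]
    have hzp : z ≠ p := fun e => hzk (e ▸ le_sup_right)
    have hzab : z ≤ a ⊔ b := hcon z hz hzH hzp
    have hza : a ≠ z := fun e => hzk (e ▸ le_sup_left)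
    exact eq_of_le_of_rk (sup_le le_sup_left hzab)
      (by rw [rk_line (hA _ ha) (hA _ hb) hab, rk_line (hA _ ha) (hA _ hz) hza])
  have h2 : ∑ g ∈ pen A a (a ⊔ p) (p ⊔ a ⊔ b), wt A m g ≤ ∑ g ∈ ({a ⊔ b} : Finset L), wt A m g :=
    Finset.sum_le_sum_of_subset_of_nonneg hsub (fun _ _ _ => wt_nonneg A m _)
  rw [Finset.sum_singleton] at h2
  have h3 : 2 ≤ min (A.filter (· ≤ a ⊔ b)).card m :=
    le_min (two_le_card ha hb hab le_sup_left le_sup_right) hm
  have h4 : wt A m (a ⊔ b) ≤ 1 / 2 := by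
    unfold wt
    exact one_div_le_one_div_of_le (by norm_num) (by exact_mod_cast h3)
  linarith

/-- The shares grow when `m` becomes smaller. -/
theorem many_mono [DecidableEq L] [DecidableRel (α := L) (· ≤ ·)] {A : Finset L} {m m' : ℕ}
    (hm : 2 ≤ m') (hmm : m' ≤ m) (hA : ∀ a ∈ A, IsAtom a) (h : Many m A) : Many m' A := by
  intro H hH x hx c hc hxc hxH hcH hz
  refine (h H hH x hx c hc hxc hxH hcH hz).trans (Finset.sum_le_sum ?_)
  intro g hg
  obtain ⟨z, hz, hzH, hzk, rfl⟩ := mem_pen.mp hg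
  have hza : x ≠ z := fun e => hzk (e ▸ le_sup_left)
  have h1 : 2 ≤ min (A.filter (· ≤ x ⊔ z)).card m' :=
    le_min (two_le_card hx hz hza le_sup_left le_sup_right) hm
  have h2 : min (A.filter (· ≤ x ⊔ z)).card m' ≤ min (A.filter (· ≤ x ⊔ z)).card m :=
    min_le_min le_rfl hmm
  unfold wt
  have h3 : (0 : ℚ) < (min (A.filter (· ≤ x ⊔ z)).card m' : ℕ) := by
    have : 0 < min (A.filter (· ≤ x ⊔ z)).card m' := by omega
    exact_mod_cast this
  exact one_div_le_one_div_of_le h3 (by exact_mod_cast h2)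

/-- Short lines only: the shares are the old ones. -/
theorem thick_of_many [DecidableEq L] [DecidableRel (α := L) (· ≤ ·)] {A : Finset L} {m : ℕ}
    (hA : ∀ a ∈ A, IsAtom a) (hle : ∀ k, rk k = 2 → (A.filter (· ≤ k)).card ≤ m)
    (h : Many m A) : Thick A := by
  intro H hH x hx c hc hxc hxH hcH hz
  refine (h H hH x hx c hc hxc hxH hcH hz).trans (Finset.sum_le_sum ?_)
  intro g hg
  obtain ⟨z, hz, hzH, hzk, rfl⟩ := mem_pen.mp hg
  have hza : x ≠ z := fun e => hzk (e ▸ le_sup_left)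
  unfold wt
  rw [min_eq_left (hle _ (rk_line (hA x hx) (hA z hz) hza))]

/-- Rank four data for a set without near pencils with many lines in its planes. -/
theorem crit4_of_many [DecidableEq L] [DecidableRel (α := L) (· ≤ ·)] {A : Finset L} {m0 : ℕ}
    (hA : ∀ a ∈ A, IsAtom a) (hrA : rk (A.sup id) = 4) (hm0 : 2 ≤ m0)
    (hlines : ∀ k, rk k = 2 → (A.filter (· ≤ k)).card ≤ m0 + 1) (hmany0 : Many m0 A) :
    Crit4 A := by
  have hcore : Core A := core_of_many hm0 hA hmany0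
  obtain ⟨u, b1, b2, r1, r2, r, hu, hb1, hb2, hb12, hbu, hr1, hr2, h4, hmax, hr, hrr, hrr1, hrr2,
    hrv, hno⟩ := frame_exists hA hrA hcore
  have hbu1 : b1 ≤ u := hbu ▸ le_sup_left
  have hbu2 : b2 ≤ u := hbu ▸ le_sup_right
  have hU : 2 ≤ (A.filter (· ≤ u)).card := two_le_card hb1 hb2 hb12 hbu1 hbu2
  -- all lines have two points
  by_cases hs2 : (A.filter (· ≤ u)).card = 2
  · refine crit4_of_thick hA hrA hcore (thick_of_many hA (m := 2) ?_
      (many_mono le_rfl hm0 hA hmany0))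
    intro k hk
    exact (hmax k hk).trans hs2.le
  obtain ⟨m, hm⟩ : ∃ m, (A.filter (· ≤ u)).card = m + 1 :=
    ⟨(A.filter (· ≤ u)).card - 1, by omega⟩
  have hm2 : 2 ≤ m := by omega
  have hmm : m ≤ m0 := by
    have := hlines u hu
    omega
  have hmany : Many m A := many_mono hm2 hmm hA hmany0
  set v := r1 ⊔ r2 with hvdef
  -- more on the frame
  have hr2u' : ¬ r2 ≤ u ⊔ r1 := by
    intro h
    have h1 := rk_sup_atom_le (x := u) (hA r1 hr1)
    rw [sup_eq_left.mpr h] at h4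
    omega
  have hr12 : r1 ≠ r2 := fun h => hr2u' (h ▸ le_sup_right)
  have hv : rk v = 2 := rk_line (hA r1 hr1) (hA r2 hr2) hr12
  have huv : rk (u ⊔ v) = 4 := by rw [hvdef, ← sup_assoc]; exact h4
  have hr1u : ¬ r1 ≤ u := by
    intro h
    have h1 := rk_sup_atom_le (x := u) (hA r2 hr2)
    rw [sup_eq_left.mpr h] at h4
    omega
  have hr2u : ¬ r2 ≤ u := fun h => hr2u' (h.trans le_sup_left)
  set R : Finset L := A.filter (fun x => ¬ x ≤ u ∧ r x ≠ x) with hRdef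
  have hmR : ∀ x, x ∈ R ↔ x ∈ A ∧ ¬ x ≤ u ∧ r x ≠ x := fun x => by simp [hRdef]
  -- the order of the colours
  obtain ⟨n, ⟨e⟩⟩ := Finite.exists_equiv_fin L
  set idx : L → ℕ := fun a => if a = b1 then 0 else (e a : ℕ) + 1 with hidx
  have hidx1 : idx b1 = 0 := by simp [hidx]
  have hidx2 : ∀ a, a ≠ b1 → 0 < idx a := fun a ha => by simp [hidx, ha]
  have hidxinj : ∀ a b, idx a = idx b → a = b := by
    intro a b hab
    by_cases h1 : a = b1
    · by_cases h2 : b = b1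
      · rw [h1, h2]
      · have := hidx2 b h2
        rw [← hab, h1, hidx1] at this
        omega
    · by_cases h2 : b = b1
      · have := hidx2 a h1
        rw [hab, h2, hidx1] at this
        omega
      · simp only [hidx, h1, h2, if_false] at hab
        exact e.injective (Fin.ext (by omega))
  -- level 1
  obtain ⟨cc, hcc, hccinj, -, hst⟩ := Pool.Agent.Helper40.Pack.level1P (R := R) (r := r) hA hu hU
    (fun k hk _ => hmax k hk)
    (fun x hx => by
      obtain ⟨h1, h2, h3⟩ := (hmR x).mp hx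
      exact ⟨h1, h2, hA _ (hr x h1 h2).1, h3⟩) idx (fun a _ _ b _ _ hab => hidxinj a b hab)
  -- level 2
  have hl2 : ∀ c, c ∈ A → c ≤ u → ∃ H : L → L, (∀ x ∈ R.filter (fun x => cc x = c),
        rk (H x) = 3 ∧ x ⊔ c ≤ H x ∧ ¬ u ≤ H x ∧ H x ≠ c ⊔ v ∧
        ∃ z ∈ A, z ≤ H x ∧ ¬ z ≤ x ⊔ c) ∧
      (∀ x ∈ R.filter (fun x => cc x = c), ∀ y ∈ R.filter (fun x => cc x = c),
        H x = H y → x = y) := by
    intro c hc hcu
    have hG : ∀ x ∈ R.filter (fun x => cc x = c), x ∈ R ∧ cc x = c := fun x hx =>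
      Finset.mem_filter.mp hx
    have hrep : ∀ x ∈ A, ¬ x ≤ u → ∀ s ∈ A, ¬ s ≤ u → r s = s → x ⊔ u = s ⊔ u → r x = s := by
      intro x hx hxu s hs hsu hss e
      rw [hrr x hx hxu s hs hsu (e ▸ le_sup_left), hss]
    apply Pool.Agent.Helper28.Level2.level2 (r1 := r1) (r2 := r2) (r := r) (u := u) hA hrA hu hv
      huv hc hcu hr1 hr2 le_sup_left le_sup_right hr12
    · intro x hx
      obtain ⟨hxR, hxc⟩ := hG x hx
      obtain ⟨h1, h2, h3⟩ := (hmR x).mp hxR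
      have h5 := hr x h1 h2
      refine ⟨h1, h2, h5.1, h5.2.1, h5.2.2, ?_⟩
      rw [← hxc]
      exact (hcc x hxR).2.2
    · intro x hx y hy e
      obtain ⟨hx1, hx2, -⟩ := (hmR x).mp (hG x hx).1
      obtain ⟨hy1, hy2, -⟩ := (hmR y).mp (hG y hy).1
      exact hrr x hx1 hx2 y hy1 hy2 (e ▸ le_sup_left)
    · intro x hx e
      obtain ⟨hx1, hx2, -⟩ := (hmR x).mp (hG x hx).1
      exact hrep x hx1 hx2 r1 hr1 hr1u hrr1 e
    · intro x hx e
      obtain ⟨hx1, hx2, -⟩ := (hmR x).mp (hG x hx).1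
      exact hrep x hx1 hx2 r2 hr2 hr2u hrr2 e
    · intro x hx y hy e
      obtain ⟨hxR, hxc⟩ := hG x hx
      obtain ⟨hyR, hyc⟩ := hG y hy
      exact hccinj x hxR y hyR (by rw [hxc, hyc]; exact e)
    · intro x hx hle
      obtain ⟨hxR, hxc⟩ := hG x hx
      obtain ⟨hx1, hx2, -⟩ := (hmR x).mp hxR
      exact hno c hc hcu x hx1 hx2 (by rw [← hxc]; exact (hcc x hxR).2.2) hle
  choose! HH hHH hHHinj using hl2
  set H : L → L := fun x => HH (cc x) x with hHdef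
  have hH : ∀ x ∈ R, rk (H x) = 3 ∧ x ⊔ cc x ≤ H x ∧ ¬ u ≤ H x ∧ H x ≠ cc x ⊔ v ∧
      ∃ z ∈ A, z ≤ H x ∧ ¬ z ≤ x ⊔ cc x := by
    intro x hx
    exact hHH (cc x) (hcc x hx).1 (hcc x hx).2.1 x (Finset.mem_filter.mpr ⟨hx, rfl⟩)
  have hHinj : ∀ x ∈ R, ∀ y ∈ R, cc x = cc y → H x = H y → x = y := by
    intro x hx y hy e1 e2
    have e2' : HH (cc x) x = HH (cc x) y := by
      have : HH (cc y) y = HH (cc x) y := by rw [e1]
      rw [← this]
      exact e2
    exact hHHinj (cc x) (hcc x hx).1 (hcc x hx).2.1 x (Finset.mem_filter.mpr ⟨hx, rfl⟩) y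
      (Finset.mem_filter.mpr ⟨hy, e1.symm⟩) e2'
  -- level 3
  obtain ⟨gg, hgg, hgginj⟩ := level3B (R := R) (u := u) (c1 := b1) (r := r) (cc := cc) (H := H)
    (m := m) hA hu hm2 hm (fun k hk => (hmax k hk).trans hm.le) hmR hr hrr
    (fun x hx => ⟨(hcc x hx).1, (hcc x hx).2.1⟩) hb1 hbu1
    (fun x hx hne hrx => hst x hx b1 hb1 hbu1 (by rw [hidx1]; exact hidx2 _ hne) hrx)
    (fun x hx => ⟨(hH x hx).1, (hH x hx).2.1, (hH x hx).2.2.1⟩) hHinj
    (fun x hx => by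
      obtain ⟨h1, h2, h3, h4', h5⟩ := hH x hx
      have hxA := (hmR x).mp hx
      have hne : x ≠ cc x := fun h => hxA.2.1 (by rw [h]; exact (hcc x hx).2.1)
      exact hmany (H x) h1 x hxA.1 (cc x) (hcc x hx).1 hne (le_sup_left.trans h2)
        (le_sup_right.trans h2) h5)
  -- assembly
  have hR' : ∀ x ∈ A, ¬ x ≤ u → r x ≠ x → x ∈ R := fun x h1 h2 h3 => (hmR x).mpr ⟨h1, h2, h3⟩
  refine crit4_of_levels (u := u) (b1 := b1) (b2 := b2) (r1 := r1) (r2 := r2) (r := r) (cc := cc)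
    (gg := gg) (H := H) hA hu hb1 hb2 hbu hr1 hr2 h4 hrr hrr1 hrr2 hrv ?_ ?_ ?_ ?_ ?_ ?_
  · intro x h1 h2 h3
    exact hcc x (hR' x h1 h2 h3)
  · intro x h1 h2 h3 y h1' h2' h3' e
    exact hccinj x (hR' x h1 h2 h3) y (hR' y h1' h2' h3') e
  · intro x h1 h2 h3
    obtain ⟨k1, k2, k3, k4, -⟩ := hH x (hR' x h1 h2 h3)
    exact ⟨k1, k2, k3, k4⟩
  · intro x h1 h2 h3 y h1' h2' h3' e1 e2
    exact hHinj x (hR' x h1 h2 h3) y (hR' y h1' h2' h3') e1 e2
  · intro x h1 h2 h3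
    exact hgg x (hR' x h1 h2 h3)
  · intro x h1 h2 h3 y h1' h2' h3' e
    exact hgginj x (hR' x h1 h2 h3) y (hR' y h1' h2' h3') e

/-- One step of peeling. -/
theorem crit4_step [DecidableEq L] [DecidableRel (α := L) (· ≤ ·)] {A : Finset L} {p a1 a2 : L}
    (hA : ∀ a ∈ A, IsAtom a) (hr : rk (A.sup id) = 4) (hp : p ∈ A) (ha1 : a1 ∈ A) (ha2 : a2 ∈ A)
    (h12 : a1 ≠ a2) (hp12 : ¬ p ≤ a1 ⊔ a2) (hord : ∀ z ∈ A, z ≤ p ⊔ a1 ⊔ a2 → z = p ∨ z ≤ a1 ⊔ a2)
    (ih : rk ((A.erase p).sup id) = 4 → Crit4 (A.erase p)) : Crit4 A := by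
  by_cases hcol : rk ((A.erase p).sup id) ≤ 3
  · have hsup := sup_erase hp
    have hph : ¬ p ≤ (A.erase p).sup id := fun h1 => by
      rw [sup_eq_left.mpr h1] at hsup
      rw [hsup] at hr
      omega
    have hr3 : rk ((A.erase p).sup id) = 3 := by
      have h1 := rk_sup_atom (hA p hp) hph
      rw [← hsup, hr] at h1
      omega
    exact crit4_of_crit3 hA hp hr3 hph (Pool.Agent.Helper80.BP.crit3_all _
      (fun a ha => hA a (Finset.mem_of_mem_erase ha)) hr3)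
  · have hr4 : rk ((A.erase p).sup id) = 4 := by
      have h2 : (A.erase p).sup id ≤ A.sup id := Finset.sup_mono (Finset.erase_subset _ _)
      have h3 := rk_mono h2
      omega
    exact crit4_peel hA hp ha1 ha2 h12 hp12 hord (ih hr4)

end Pool.Agent.Helper8.ManyLines
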